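import Pool.Agent.Helper31_BSN.Isg

/-!
# Collection in the model
-/

namespace Pool.Agent.BSN.H31

open Filter Pool.Agent.BSig

theorem bsg (h : ElemStmt) : BSigmaStmt := by
  intro j P hP a hx
  obtain ⟨i, Q, hQ, hPQ⟩ := hP
  obtain ⟨l, c, S, -, hS⟩ := h j (j + 1) le_rfl (i + 2) Q hQ
  have key : ∀ (w : Fin i → ℕ → ℕ) (hw : ∀ t, Bddt (towj j) (w t)) (f g : ℕ → ℕ)
      (hf : Bddt (towj j) f) (hg : Bddt (towj j) g),
      Q (Fin.append (fun t => mk (w t) (hw t)) ![mk f hf, mk g hg]) ↔
      ∀ᶠ n in (UU : Filter ℕ), S (Fin.append (fun t => rep (c t) n)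
        (Fin.append (fun t => w t n) ![f n, g n])) := by
    intro w hw f g hf hg
    rw [hS]
    have hb : ∀ t, Bddt (towj j) ((Fin.append w ![f, g] : Fin (i + 2) → ℕ → ℕ) t) := by
      intro t
      refine Fin.addCases (fun b => ?_) (fun b => ?_) t
      · rw [Fin.append_left]; exact hw b
      · rw [Fin.append_right]
        fin_cases b
        · exact hf
        · exact hg
    have h1 := starR_append S c (Fin.append w ![f, g]) hb
    have e1 : (fun t => mk ((Fin.append w ![f, g] : Fin (i + 2) → ℕ → ℕ) t) (hb t)) =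
        (Fin.append (fun t => mk (w t) (hw t)) ![mk f hf, mk g hg] :
          Fin (i + 2) → MMt (towj j)) := by
      funext t
      refine Fin.addCases (fun b => ?_) (fun b => ?_) t
      · refine Eq.trans ?_ (Fin.append_left (fun t => mk (w t) (hw t)) ![mk f hf, mk g hg] b).symm
        exact mk_eq.2 (Eventually.of_forall fun n => by rw [Fin.append_left])
      · refine Eq.trans ?_ (Fin.append_right (fun t => mk (w t) (hw t)) ![mk f hf, mk g hg] b).symm
        fin_cases b
        · change mk ((Fin.append w ![f, g] : Fin (i + 2) → ℕ → ℕ) (Fin.natAdd i 0)) (hb _) =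
            mk f hf
          rw [mk_eq, Fin.append_right]
          exact Eventually.of_forall fun n => rfl
        · change mk ((Fin.append w ![f, g] : Fin (i + 2) → ℕ → ℕ) (Fin.natAdd i 1)) (hb _) =
            mk g hg
          rw [mk_eq, Fin.append_right]
          exact Eventually.of_forall fun n => rfl
    rw [e1] at h1
    rw [h1]
    refine eventually_congr (Eventually.of_forall fun n => ?_)
    have e2 : (fun t => (Fin.append w ![f, g] : Fin (i + 2) → ℕ → ℕ) t n) =
        (Fin.append (fun t => w t n) ![f n, g n] : Fin (i + 2) → ℕ) := by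
      funext t
      refine Fin.addCases (fun b => ?_) (fun b => ?_) t
      · rw [Fin.append_left, Fin.append_left]
      · rw [Fin.append_right, Fin.append_right]
        fin_cases b <;> rfl
    rw [e2]
  obtain ⟨A, hA, rfl⟩ := exists_mk a
  by_contra hc
  push Not at hc
  let R : ℕ → ℕ → ℕ → Prop := fun N n x => x < A n ∧ ∀ y, y ≤ (towj j).tow N n →
    ∀ w : Fin i → ℕ, (∀ t, w t ≤ (towj j).tow N n) →
      S (Fin.append (fun t => rep (c t) n) (Fin.append w ![x, y]))
  have hdec : ∀ N n x, R (N + 1) n x → R N n x := by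
    intro N n x hR
    have hlt := (tow_lt_succ (towj j) N n).le
    exact ⟨hR.1, fun y hy w hw => hR.2 y (hy.trans hlt) w fun t => (hw t).trans hlt⟩
  have hsat : ∀ N, ∀ᶠ n in (UU : Filter ℕ), ∃ x, R N n x := by
    intro N
    obtain ⟨x, hxa, hxy⟩ := hc (mk ((towj j).tow (N + 1)) (bdd_tow (N + 1)))
    obtain ⟨f, hf, rfl⟩ := exists_mk x
    rw [mk_lt] at hxa
    by_contra hne
    rw [not_eventually'] at hne
    have hne' : ∀ᶠ n in (UU : Filter ℕ), ∃ y, y ≤ (towj j).tow N n ∧
        ∃ w : Fin i → ℕ, (∀ t, w t ≤ (towj j).tow N n) ∧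
        ¬ S (Fin.append (fun t => rep (c t) n) (Fin.append w ![f n, y])) := by
      filter_upwards [hne, hxa] with n h1 h2
      by_contra h3
      push Not at h3
      exact h1 ⟨f n, h2, fun y hy w hw => h3 y hy w hw⟩
    classical
    let y : ℕ → ℕ := fun n => if h : ∃ y, y ≤ (towj j).tow N n ∧
        ∃ w : Fin i → ℕ, (∀ t, w t ≤ (towj j).tow N n) ∧
        ¬ S (Fin.append (fun t => rep (c t) n) (Fin.append w ![f n, y])) then h.choose else 0
    have hy : ∀ᶠ n in (UU : Filter ℕ), y n ≤ (towj j).tow N n ∧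
        ∃ w : Fin i → ℕ, (∀ t, w t ≤ (towj j).tow N n) ∧
        ¬ S (Fin.append (fun t => rep (c t) n) (Fin.append w ![f n, y n])) := by
      filter_upwards [hne'] with n h1
      have h2 : y n = h1.choose := dif_pos h1
      rw [h2]
      exact h1.choose_spec
    let w : ℕ → Fin i → ℕ := fun n => if h : ∃ w : Fin i → ℕ,
      (∀ t, w t ≤ (towj j).tow N n) ∧
        ¬ S (Fin.append (fun t => rep (c t) n) (Fin.append w ![f n, y n])) then h.choose
      else fun _ => 0
    have hw : ∀ᶠ n in (UU : Filter ℕ), (∀ t, w n t ≤ (towj j).tow N n) ∧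
        ¬ S (Fin.append (fun t => rep (c t) n) (Fin.append (w n) ![f n, y n])) := by
      filter_upwards [hy] with n h1
      have h2 : w n = h1.2.choose := dif_pos h1.2
      rw [h2]
      exact h1.2.choose_spec
    have hyb : Bddt (towj j) y := bdd_of_le (bdd_tow N) (hy.mono fun n h => h.1)
    have hwb : ∀ t, Bddt (towj j) (fun n => w n t) := fun t =>
      bdd_of_le (bdd_tow N) (hw.mono fun n h => h.1 t)
    have hlt : mk y hyb < mk ((towj j).tow (N + 1)) (bdd_tow (N + 1)) := by
      rw [mk_lt]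
      filter_upwards [hy] with n h1
      exact lt_of_le_of_lt h1.1 (tow_lt_succ (towj j) N n)
    have h1 := hxy _ hlt
    rw [hPQ] at h1
    push Not at h1
    have h2 := (key (fun t n => w n t) hwb f y hf hyb).1 (h1 _)
    obtain ⟨n, h3, h4⟩ := (h2.and hw).exists
    exact h4.2 h3
  obtain ⟨x, -, -, -, -, hR⟩ := saturation R hdec hsat
  have hxb : Bddt (towj j) x := bdd_of_le hA ((hR 0).mono fun n h => h.1.le)
  have hxa : mk x hxb < mk A hA := by
    rw [mk_lt]
    exact (hR 0).mono fun n h => h.1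
  obtain ⟨y, hy⟩ := hx _ hxa
  obtain ⟨g, hg, rfl⟩ := exists_mk y
  rw [hPQ] at hy
  obtain ⟨w, hw⟩ := hy
  have e : w = fun t => mk (rep (w t)) (bdd_rep (w t)) := by
    funext t; exact (mk_rep _).symm
  rw [e, key, not_eventually'] at hw
  obtain ⟨K, hK⟩ := hg
  have hL : ∃ L : ℕ, ∀ t, ∀ᶠ n in (UU : Filter ℕ), rep (w t) n < (towj j).tow L n := by
    have h1 : ∀ t, ∃ L : ℕ, ∀ᶠ n in (UU : Filter ℕ), rep (w t) n < (towj j).tow L n :=
      fun t => bdd_rep (w t)
    choose L hL using h1
    refine ⟨Finset.univ.sup L, fun t => ?_⟩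
    filter_upwards [hL t] with n h2
    exact h2.trans_le (tow_mono _ (Finset.le_sup (Finset.mem_univ t)) n)
  obtain ⟨L, hL⟩ := hL
  have hL' : ∀ᶠ n in (UU : Filter ℕ), ∀ t, rep (w t) n < (towj j).tow L n := by
    rw [eventually_all]; exact hL
  obtain ⟨n, h1, h2, h3, h4⟩ := (hw.and (hK.and (hL'.and (hR (max K L))))).exists
  refine h1 (h4.2 _ ?_ _ ?_)
  · exact h2.le.trans (tow_mono _ (le_max_left _ _) n)
  · exact fun t => (h3 t).le.trans (tow_mono _ (le_max_right _ _) n)

end Pool.Agent.BSN.H31
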