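import Pool.Agent.Helper26_BSN.Defs2
import Pool.Agent.Helper26_BSN.Int

/-!
# Induction in the model
-/

namespace Pool.Agent.BSN.H31

open Filter Pool.Agent.BSig

/-- Sections of extensions, elementwise. -/
theorem starR_append {τ : Tower} {l k : ℕ} (S : (Fin (l + k) → ℕ) → Prop) (c : Fin l → MMt τ)
    (f : Fin k → ℕ → ℕ) (hf : ∀ i, Bddt τ (f i)) :
    starR S (Fin.append c (fun i => mk (f i) (hf i))) ↔
      ∀ᶠ n in (UU : Filter ℕ), S (Fin.append (fun i => rep (c i) n) (fun i => f i n)) := by
  unfold starR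
  have hall : ∀ᶠ n in (UU : Filter ℕ), ∀ i, rep (mk (f i) (hf i)) n = f i n := by
    rw [eventually_all]
    intro i
    exact rep_mk (f i) (hf i)
  refine eventually_congr ?_
  filter_upwards [hall] with n hn
  have e : (fun i => rep (Fin.append c (fun i => mk (f i) (hf i)) i) n) =
      Fin.append (fun i => rep (c i) n) (fun i => f i n) := by
    funext i
    refine Fin.addCases (fun a => ?_) (fun a => ?_) i
    · rw [Fin.append_left, Fin.append_left]
    · rw [Fin.append_right, Fin.append_right, hn]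
  rw [e]

theorem isg (h : ElemStmt) : ISigmaStmt := by
  intro j P hP h0 hs x
  obtain ⟨l, c, S, -, hS⟩ := h j (j + 1) le_rfl 1 P hP
  have key : ∀ (f : ℕ → ℕ) (hf : Bddt (towj j) f), P ![mk f hf] ↔
      ∀ᶠ n in (UU : Filter ℕ), S (Fin.append (fun i => rep (c i) n) ![f n]) := by
    intro f hf
    rw [hS]
    have h1 := starR_append S c (fun _ : Fin 1 => f) (fun _ => hf)
    have e1 : (fun _ : Fin 1 => mk f hf) = (![mk f hf] : Fin 1 → MMt (towj j)) := by
      funext i; fin_cases i; rfl
    rw [e1] at h1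
    rw [h1]
    refine eventually_congr (Eventually.of_forall fun n => ?_)
    have e2 : (fun _ : Fin 1 => f n) = (![f n] : Fin 1 → ℕ) := by
      funext i; fin_cases i; rfl
    rw [e2]
  by_contra hc
  obtain ⟨g, hg, rfl⟩ := exists_mk x
  rw [key, not_eventually'] at hc
  have h0' := h0
  rw [mk_zero, key] at h0'
  classical
  let y : ℕ → ℕ := fun n =>
    if h : ∃ y, ¬ S (Fin.append (fun i => rep (c i) n) ![y]) then Nat.find h else 0
  have hy : ∀ᶠ n in (UU : Filter ℕ), ¬ S (Fin.append (fun i => rep (c i) n) ![y n]) ∧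
      y n ≤ g n ∧ 0 < y n ∧ S (Fin.append (fun i => rep (c i) n) ![y n - 1]) := by
    filter_upwards [hc, h0'] with n h1 h2
    have h3 : ∃ y, ¬ S (Fin.append (fun i => rep (c i) n) ![y]) := ⟨_, h1⟩
    have h4 : y n = Nat.find h3 := dif_pos h3
    rw [h4]
    have h5 : 0 < Nat.find h3 := by
      rcases Nat.eq_zero_or_pos (Nat.find h3) with h | h
      · have := Nat.find_spec h3
        rw [h] at this
        exact absurd h2 this
      · exact h
    refine ⟨Nat.find_spec h3, Nat.find_min' h3 h1, h5, ?_⟩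
    have := Nat.find_min h3 (m := Nat.find h3 - 1) (by omega)
    rwa [not_not] at this
  have hyb : Bddt (towj j) y := bdd_of_le hg (hy.mono fun n h => h.2.1)
  have hzb : Bddt (towj j) (fun n => y n - 1) :=
    bdd_of_le hyb (Eventually.of_forall fun n => Nat.sub_le _ _)
  have h6 : P ![mk (fun n => y n - 1) hzb] := by
    rw [key]
    exact hy.mono fun n h => h.2.2.2
  have h7 := hs _ h6
  have e3 : mk (fun n => y n - 1) hzb + 1 = mk y hyb := by
    rw [mk_one, mk_add, mk_eq]
    filter_upwards [hy] with n hn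
    omega
  rw [e3, key] at h7
  obtain ⟨n, h8, h9⟩ := (h7.and hy).exists
  exact h9.1 h8

end Pool.Agent.BSN.H31
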